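import Mathlib
import Pool.Agent.Q87.EssConn

/-!
# The essential spectrum of an operator with only finite-codimensional invariant subspaces

If every nontrivial closed invariant subspace of the bounded operator `T` on an infinite
dimensional complex Banach (in particular Hilbert) space has finite codimension, then the essential
spectrum of `T` is connected. In particular it is never the boundary of an annulus.

Proof. Fix `f ≠ 0` and let `M` be the cyclic subspace of `f`, which has finite codimension. Let `G`
be the set of `z` for which there is `C` with `‖q(T) f‖ + |c| ≤ C ‖(T - z) q(T) f + c f‖` for all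
polynomials `q` and constants `c`. Then `G` is the set of points of the spectrum outside of the
essential spectrum. For a polynomial `p` the quotient `(p - p(z)) / (X - z)` is a polynomial in `z`,
so the maximum principle shows that a bounded set whose frontier is contained in `G` is contained
in `G`. The spectrum is connected by the Riesz idempotent theorem. Topology of the plane does the
rest.
-/

set_option autoImplicit false

open Metric Set

universe u

namespace Pool.Agent.Results.MP_15dca6_an.EssentialSpectrumConnected

/-- The class `Q(H)`: every closed subspace `M` with `T M ⊆ M`, other than `{0}` and `H`, has finite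
codimension. -/
def OnlyFiniteCodim {H : Type u} [NormedAddCommGroup H] [NormedSpace ℂ H] (T : H →L[ℂ] H) : Prop :=
  ∀ M : Submodule ℂ H, IsClosed (M : Set H) → (∀ x ∈ M, T x ∈ M) → M ≠ ⊥ → M ≠ ⊤ →
    FiniteDimensional ℂ (H ⧸ M)

/-- The essential spectrum: the set of the `z` such that `T - z` has no inverse modulo the compact
operators, i.e. the spectrum of the image of `T` in the Calkin algebra. -/
def essSpectrum {H : Type u} [NormedAddCommGroup H] [NormedSpace ℂ H] (T : H →L[ℂ] H) : Set ℂ :=
  {z | ¬ ∃ S : H →L[ℂ] H, IsCompactOperator (S * (T - z • 1) - 1 : H →L[ℂ] H) ∧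
    IsCompactOperator ((T - z • 1) * S - 1 : H →L[ℂ] H)}

/-- **Theorem.** On an infinite dimensional complex Banach space (in particular on a Hilbert space)
the essential spectrum of an operator in the class `Q(H)` is connected; it is never the union of
the two circles bounding an annulus. -/
theorem result :
    (∀ (H : Type u) [NormedAddCommGroup H] [NormedSpace ℂ H] [CompleteSpace H] (T : H →L[ℂ] H),
      ¬ FiniteDimensional ℂ H → OnlyFiniteCodim T → IsConnected (essSpectrum T)) ∧
    (∀ (H : Type u) [NormedAddCommGroup H] [NormedSpace ℂ H] [CompleteSpace H],
      ¬ FiniteDimensional ℂ H → ∀ (c : ℂ) (r R : ℝ), 0 < r → r < R →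
        ¬ ∃ T : H →L[ℂ] H, OnlyFiniteCodim T ∧ essSpectrum T = sphere c r ∪ sphere c R) :=
  ⟨fun _ _ _ _ _ hX hT => Q87.EssMain.connected hT hX,
    fun _ _ _ _ hX c _ _ hr hR ⟨_, hT, h⟩ => Q87.EssMain.not_two_circles hT hX c hr hR h⟩

end Pool.Agent.Results.MP_15dca6_an.EssentialSpectrumConnected
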